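import Mathlib

set_option autoImplicit false

namespace Pool.Agent.Results.MP_9e760c_nt.PowerSaving

open Finset

/-- splitting a divisor along a coprime factorization -/
lemma gcd_split {n1 n2 a : ℕ} (hc : Nat.Coprime n1 n2) (ha : a ∣ n1 * n2) :
    a = Nat.gcd a n1 * Nat.gcd a n2 := by
  have h := Nat.Coprime.gcd_mul a hc
  rw [← h]
  exact (Nat.gcd_eq_left ha).symm

/-- the coprime ordered pairs whose product divides m -/
def Q (m : ℕ) : Finset (ℕ × ℕ) :=
  (m.divisors ×ˢ m.divisors).filter (fun x => Nat.Coprime x.1 x.2 ∧ x.1 * x.2 ∣ m)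

lemma mem_Q {m : ℕ} (hm : m ≠ 0) (x : ℕ × ℕ) :
    x ∈ Q m ↔ Nat.Coprime x.1 x.2 ∧ x.1 * x.2 ∣ m := by
  unfold Q
  rw [mem_filter, mem_product, Nat.mem_divisors, Nat.mem_divisors]
  constructor
  · rintro ⟨_, h⟩
    exact h
  · rintro ⟨h1, h2⟩
    exact ⟨⟨⟨dvd_of_mul_right_dvd h2, hm⟩, ⟨dvd_of_mul_left_dvd h2, hm⟩⟩, h1, h2⟩

lemma card_Q_le {m : ℕ} (hm : m ≠ 0) : (Q m).card ≤ (m * m).divisors.card := by
  apply Finset.card_le_card_of_injOn (fun x => x.2 * (m / x.1))
  · intro x hx
    have hx' := (mem_Q hm x).1 (by simpa using hx)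
    simp only [Finset.mem_coe, Nat.mem_divisors]
    refine ⟨?_, by positivity⟩
    apply mul_dvd_mul
    · exact dvd_of_mul_left_dvd hx'.2
    · exact Nat.div_dvd_of_dvd (dvd_of_mul_right_dvd hx'.2)
  · intro x hx y hy hxy
    have hx' := (mem_Q hm x).1 (by simpa using hx)
    have hy' := (mem_Q hm y).1 (by simpa using hy)
    simp only at hxy
    have hx1 : x.1 ∣ m := dvd_of_mul_right_dvd hx'.2
    have hy1 : y.1 ∣ m := dvd_of_mul_right_dvd hy'.2
    have e1 : m / x.1 * x.1 = m := Nat.div_mul_cancel hx1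
    have e2 : m / y.1 * y.1 = m := Nat.div_mul_cancel hy1
    have hmpos : 0 < m := Nat.pos_of_ne_zero hm
    -- x.2 * m * y.1 = y.2 * m * x.1
    have key : x.2 * y.1 = y.2 * x.1 := by
      have h1 : x.2 * (m / x.1) * (x.1 * y.1) = x.2 * y.1 * m := by
        calc x.2 * (m / x.1) * (x.1 * y.1) = x.2 * y.1 * (m / x.1 * x.1) := by ring
          _ = x.2 * y.1 * m := by rw [e1]
      have h2 : y.2 * (m / y.1) * (x.1 * y.1) = y.2 * x.1 * m := by
        calc y.2 * (m / y.1) * (x.1 * y.1) = y.2 * x.1 * (m / y.1 * y.1) := by ring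
          _ = y.2 * x.1 * m := by rw [e2]
      rw [hxy] at h1
      rw [h1] at h2
      exact Nat.eq_of_mul_eq_mul_right hmpos h2
    have hd1 : x.1 ∣ y.1 := by
      have : x.1 ∣ x.2 * y.1 := by rw [key]; exact Dvd.intro_left _ rfl
      exact hx'.1.dvd_of_dvd_mul_left this
    have hd2 : y.1 ∣ x.1 := by
      have : y.1 ∣ y.2 * x.1 := by rw [← key]; exact Dvd.intro_left _ rfl
      exact hy'.1.dvd_of_dvd_mul_left this
    have h11 : x.1 = y.1 := Nat.dvd_antisymm hd1 hd2
    have hy1pos : 0 < y.1 := Nat.pos_of_dvd_of_pos hy1 hmpos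
    have h22 : x.2 = y.2 := by
      rw [h11] at key
      exact Nat.eq_of_mul_eq_mul_right hy1pos key
    exact Prod.ext h11 h22

/-- coprime pairs at distance h -/
def N (n h : ℕ) : Finset (ℕ × ℕ) := (Q n).filter (fun x => x.2 = x.1 + h)

lemma mem_N {n h : ℕ} (hn : n ≠ 0) (x : ℕ × ℕ) :
    x ∈ N n h ↔ (Nat.Coprime x.1 x.2 ∧ x.1 * x.2 ∣ n) ∧ x.2 = x.1 + h := by
  unfold N
  rw [mem_filter, mem_Q hn]

/-- uniqueness of the second half of a solution, given the first half -/
lemma second_half_unique {a1 b1 a2 b2 c2 d2 h : ℕ} (hcop : Nat.Coprime a1 b1)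
    (ha1 : 0 < a1) (hb1 : 0 < b1) (hc2 : 0 < c2) (hd2 : 0 < d2) (ha2 : 0 < a2) (hb2 : 0 < b2)
    (e1 : b1 * b2 = a1 * a2 + h) (e2 : b1 * d2 = a1 * c2 + h)
    (s1 : a2 * b2 ≤ a1 * b1) (s2 : c2 * d2 ≤ a1 * b1) : a2 = c2 ∧ b2 = d2 := by
  -- wlog a2 ≤ c2
  have main : ∀ a2 b2 c2 d2 : ℕ, 0 < a2 → 0 < b2 → b1 * b2 = a1 * a2 + h → b1 * d2 = a1 * c2 + h →
      c2 * d2 ≤ a1 * b1 → a2 ≤ c2 → a2 = c2 ∧ b2 = d2 := by
    intro a2 b2 c2 d2 ha2 hb2 e1 e2 s2 hle
    obtain ⟨t, rfl⟩ := Nat.exists_eq_add_of_le hle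
    have hbd : b2 ≤ d2 := by
      have : b1 * b2 ≤ b1 * d2 := by
        rw [e1, e2]; nlinarith
      exact Nat.le_of_mul_le_mul_left this hb1
    obtain ⟨u, rfl⟩ := Nat.exists_eq_add_of_le hbd
    have h3 : b1 * u = a1 * t := by
      have e2' : b1 * b2 + b1 * u = a1 * a2 + a1 * t + h := by
        rw [← mul_add, e2]; ring
      omega
    have hat : b1 ∣ t := by
      have : b1 ∣ a1 * t := by rw [← h3]; exact Dvd.intro _ rfl
      exact hcop.symm.dvd_of_dvd_mul_left this
    have hbu : a1 ∣ u := by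
      have : a1 ∣ b1 * u := by rw [h3]; exact Dvd.intro _ rfl
      exact hcop.dvd_of_dvd_mul_left this
    rcases Nat.eq_zero_or_pos t with ht | ht
    · subst ht
      have : u = 0 := by
        have : b1 * u = 0 := by rw [h3]; ring
        rcases Nat.mul_eq_zero.1 this with h | h
        · omega
        · exact h
      subst this
      simp
    · exfalso
      have hu : 0 < u := by
        rcases Nat.eq_zero_or_pos u with h0 | h0
        · subst h0
          have : a1 * t = 0 := by rw [← h3]; ring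
          rcases Nat.mul_eq_zero.1 this with h | h <;> omega
        · exact h0
      have h4 : b1 ≤ t := Nat.le_of_dvd ht hat
      have h5 : a1 ≤ u := Nat.le_of_dvd hu hbu
      have : (b1 + 1) * (a1 + 1) ≤ (a2 + t) * (b2 + u) := by
        apply Nat.mul_le_mul <;> omega
      nlinarith
  rcases le_total a2 c2 with hle | hle
  · exact main a2 b2 c2 d2 ha2 hb2 e1 e2 s2 hle
  · have := main c2 d2 a2 b2 hc2 hd2 e2 e1 s1 hle
    exact ⟨this.1.symm, this.2.symm⟩

lemma half_card {n1 n2 h : ℕ} (hn1 : n1 ≠ 0) (hn2 : n2 ≠ 0) (hc : Nat.Coprime n1 n2) :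
    ((N (n1 * n2) h).filter (fun x => Nat.gcd x.1 n2 * Nat.gcd x.2 n2 ≤
      Nat.gcd x.1 n1 * Nat.gcd x.2 n1)).card ≤ (n1 * n1).divisors.card := by
  have hn : n1 * n2 ≠ 0 := Nat.mul_ne_zero hn1 hn2
  refine le_trans ?_ (card_Q_le hn1)
  apply Finset.card_le_card_of_injOn (fun x => (Nat.gcd x.1 n1, Nat.gcd x.2 n1))
  · intro x hx
    have hx0 := (Finset.mem_filter.1 (Finset.mem_coe.1 hx)).1
    have hx' := (mem_N hn x).1 hx0
    obtain ⟨⟨hcop, hdvd⟩, -⟩ := hx'
    have : (Nat.gcd x.1 n1, Nat.gcd x.2 n1) ∈ Q n1 := by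
      rw [mem_Q hn1]
      have hcc : Nat.Coprime (Nat.gcd x.1 n1) (Nat.gcd x.2 n1) :=
        Nat.Coprime.coprime_dvd_left (Nat.gcd_dvd_left _ _)
          (Nat.Coprime.coprime_dvd_right (Nat.gcd_dvd_left _ _) hcop)
      exact ⟨hcc, hcc.mul_dvd_of_dvd_of_dvd (Nat.gcd_dvd_right _ _) (Nat.gcd_dvd_right _ _)⟩
    exact Finset.mem_coe.2 this
  · intro x hx y hy hxy
    have hx1 := Finset.mem_filter.1 (Finset.mem_coe.1 hx)
    have hy1 := Finset.mem_filter.1 (Finset.mem_coe.1 hy)
    obtain ⟨⟨hcopx, hdvdx⟩, hdx⟩ := (mem_N hn x).1 hx1.1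
    obtain ⟨⟨hcopy, hdvdy⟩, hdy⟩ := (mem_N hn y).1 hy1.1
    have sx := hx1.2
    have sy := hy1.2
    simp only [Prod.mk.injEq] at hxy
    obtain ⟨g1, g2⟩ := hxy
    have fx1 := gcd_split hc (dvd_of_mul_right_dvd hdvdx)
    have fx2 := gcd_split hc (dvd_of_mul_left_dvd hdvdx)
    have fy1 := gcd_split hc (dvd_of_mul_right_dvd hdvdy)
    have fy2 := gcd_split hc (dvd_of_mul_left_dvd hdvdy)
    have px1 : 0 < Nat.gcd x.1 n1 := Nat.gcd_pos_of_pos_right _ (Nat.pos_of_ne_zero hn1)
    have px2 : 0 < Nat.gcd x.2 n1 := Nat.gcd_pos_of_pos_right _ (Nat.pos_of_ne_zero hn1)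
    have qx1 : 0 < Nat.gcd x.1 n2 := Nat.gcd_pos_of_pos_right _ (Nat.pos_of_ne_zero hn2)
    have qx2 : 0 < Nat.gcd x.2 n2 := Nat.gcd_pos_of_pos_right _ (Nat.pos_of_ne_zero hn2)
    have qy1 : 0 < Nat.gcd y.1 n2 := Nat.gcd_pos_of_pos_right _ (Nat.pos_of_ne_zero hn2)
    have qy2 : 0 < Nat.gcd y.2 n2 := Nat.gcd_pos_of_pos_right _ (Nat.pos_of_ne_zero hn2)
    have hcc : Nat.Coprime (Nat.gcd x.1 n1) (Nat.gcd x.2 n1) :=
      Nat.Coprime.coprime_dvd_left (Nat.gcd_dvd_left _ _)
        (Nat.Coprime.coprime_dvd_right (Nat.gcd_dvd_left _ _) hcopx)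
    rw [← g1, ← g2] at sy
    have e1 : Nat.gcd x.2 n1 * Nat.gcd x.2 n2 = Nat.gcd x.1 n1 * Nat.gcd x.1 n2 + h := by
      rw [← fx1, ← fx2]; exact hdx
    have e2 : Nat.gcd x.2 n1 * Nat.gcd y.2 n2 = Nat.gcd x.1 n1 * Nat.gcd y.1 n2 + h := by
      rw [g1, g2, ← fy1, ← fy2]; exact hdy
    have := second_half_unique hcc px1 px2 qy1 qy2 qx1 qx2 e1 e2 sx sy
    apply Prod.ext
    · rw [fx1, fy1, this.1, g1]
    · rw [fx2, fy2, this.2, g2]

/-- the two-sided bound -/
lemma N_card_le_crt {n1 n2 h : ℕ} (hn1 : n1 ≠ 0) (hn2 : n2 ≠ 0) (hc : Nat.Coprime n1 n2) :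
    (N (n1 * n2) h).card ≤ (n1 * n1).divisors.card + (n2 * n2).divisors.card := by
  have h1 := half_card (h := h) hn1 hn2 hc
  have h2 := half_card (h := h) hn2 hn1 hc.symm
  rw [mul_comm n2 n1] at h2
  calc (N (n1 * n2) h).card
      ≤ ((N (n1 * n2) h).filter (fun x => Nat.gcd x.1 n2 * Nat.gcd x.2 n2 ≤
          Nat.gcd x.1 n1 * Nat.gcd x.2 n1) ∪
        (N (n1 * n2) h).filter (fun x => Nat.gcd x.1 n1 * Nat.gcd x.2 n1 ≤
          Nat.gcd x.1 n2 * Nat.gcd x.2 n2)).card := by
        apply Finset.card_le_card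
        intro x hx
        rw [Finset.mem_union, Finset.mem_filter, Finset.mem_filter]
        rcases le_total (Nat.gcd x.1 n2 * Nat.gcd x.2 n2) (Nat.gcd x.1 n1 * Nat.gcd x.2 n1) with h | h
        · exact Or.inl ⟨hx, h⟩
        · exact Or.inr ⟨hx, h⟩
    _ ≤ _ := Finset.card_union_le _ _
    _ ≤ _ := Nat.add_le_add h1 h2

/-- the one-prime bound -/
lemma N_card_le_chain {p e m h : ℕ} (hp : p.Prime) (hm : m ≠ 0) :
    (N (p ^ e * m) h).card ≤ 2 * m.divisors.card := by
  have hn : p ^ e * m ≠ 0 := Nat.mul_ne_zero (pow_ne_zero _ hp.ne_zero) hm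
  have hA : ((N (p ^ e * m) h).filter (fun x => ¬ p ∣ x.1)).card ≤ m.divisors.card := by
    apply Finset.card_le_card_of_injOn (fun x => x.1)
    · intro x hx
      have hx1 := Finset.mem_filter.1 (Finset.mem_coe.1 hx)
      obtain ⟨⟨_, hd⟩, _⟩ := (mem_N hn x).1 hx1.1
      apply Finset.mem_coe.2
      rw [Nat.mem_divisors]
      refine ⟨?_, hm⟩
      have h1 : x.1 ∣ p ^ e * m := dvd_of_mul_right_dvd hd
      have h2 : Nat.Coprime x.1 (p ^ e) :=
        Nat.Coprime.pow_right _ ((Nat.Prime.coprime_iff_not_dvd hp).2 hx1.2).symm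
      exact h2.dvd_of_dvd_mul_left h1
    · intro x hx y hy hxy
      have hx1 := Finset.mem_filter.1 (Finset.mem_coe.1 hx)
      have hy1 := Finset.mem_filter.1 (Finset.mem_coe.1 hy)
      obtain ⟨_, ex⟩ := (mem_N hn x).1 hx1.1
      obtain ⟨_, ey⟩ := (mem_N hn y).1 hy1.1
      simp only at hxy
      apply Prod.ext hxy
      rw [ex, ey, hxy]
  have hB : ((N (p ^ e * m) h).filter (fun x => ¬ p ∣ x.2)).card ≤ m.divisors.card := by
    apply Finset.card_le_card_of_injOn (fun x => x.2)
    · intro x hx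
      have hx1 := Finset.mem_filter.1 (Finset.mem_coe.1 hx)
      obtain ⟨⟨_, hd⟩, _⟩ := (mem_N hn x).1 hx1.1
      apply Finset.mem_coe.2
      rw [Nat.mem_divisors]
      refine ⟨?_, hm⟩
      have h1 : x.2 ∣ p ^ e * m := dvd_of_mul_left_dvd hd
      have h2 : Nat.Coprime x.2 (p ^ e) :=
        Nat.Coprime.pow_right _ ((Nat.Prime.coprime_iff_not_dvd hp).2 hx1.2).symm
      exact h2.dvd_of_dvd_mul_left h1
    · intro x hx y hy hxy
      have hx1 := Finset.mem_filter.1 (Finset.mem_coe.1 hx)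
      have hy1 := Finset.mem_filter.1 (Finset.mem_coe.1 hy)
      obtain ⟨_, ex⟩ := (mem_N hn x).1 hx1.1
      obtain ⟨_, ey⟩ := (mem_N hn y).1 hy1.1
      simp only at hxy
      apply Prod.ext _ hxy
      omega
  calc (N (p ^ e * m) h).card
      ≤ ((N (p ^ e * m) h).filter (fun x => ¬ p ∣ x.1) ∪
          (N (p ^ e * m) h).filter (fun x => ¬ p ∣ x.2)).card := by
        apply Finset.card_le_card
        intro x hx
        rw [Finset.mem_union, Finset.mem_filter, Finset.mem_filter]
        obtain ⟨⟨hc, _⟩, _⟩ := (mem_N hn x).1 hx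
        by_cases h1 : p ∣ x.1
        · right
          refine ⟨hx, fun h2 => ?_⟩
          have := Nat.dvd_gcd h1 h2
          rw [hc] at this
          exact hp.one_lt.ne' (Nat.dvd_one.1 this)
        · left
          exact ⟨hx, h1⟩
    _ ≤ _ := Finset.card_union_le _ _
    _ ≤ _ := by omega

/-- balanced partition -/
lemma balanced (s : Finset ℕ) (w : ℕ → ℝ) (B : ℝ) (hB : 0 ≤ B) (hw : ∀ p ∈ s, 0 ≤ w p ∧ w p ≤ B) :
    ∃ U ⊆ s, |∑ p ∈ U, w p - ∑ p ∈ s \ U, w p| ≤ B := by
  classical
  induction s using Finset.induction_on with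
  | empty => exact ⟨∅, by simp, by simpa using hB⟩
  | insert a s ha ih =>
    obtain ⟨U, hU, hUB⟩ := ih (fun p hp => hw p (Finset.mem_insert_of_mem hp))
    have haU : a ∉ U := fun h => ha (hU h)
    have hwa := hw a (Finset.mem_insert_self a s)
    rcases le_total (∑ p ∈ U, w p) (∑ p ∈ s \ U, w p) with hle | hle
    · refine ⟨insert a U, Finset.insert_subset_insert _ hU, ?_⟩
      have h1 : insert a s \ insert a U = s \ U := by
        ext x
        simp only [Finset.mem_sdiff, Finset.mem_insert, not_or]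
        constructor
        · rintro ⟨h1 | h1, h2, h3⟩
          · exact absurd h1 h2
          · exact ⟨h1, h3⟩
        · rintro ⟨h1, h2⟩
          refine ⟨Or.inr h1, ?_, h2⟩
          rintro rfl
          exact ha h1
      rw [h1, Finset.sum_insert haU]
      rw [abs_le] at hUB ⊢
      constructor <;> linarith [hUB.1, hUB.2, hwa.1, hwa.2]
    · refine ⟨U, hU.trans (Finset.subset_insert _ _), ?_⟩
      have h1 : insert a s \ U = insert a (s \ U) := by
        rw [Finset.insert_sdiff_of_notMem _ haU]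
      have h2 : a ∉ s \ U := fun h => ha (Finset.mem_sdiff.1 h).1
      rw [h1, Finset.sum_insert h2]
      rw [abs_le] at hUB ⊢
      constructor <;> linarith [hUB.1, hUB.2, hwa.1, hwa.2]

/-- the part of n supported on the set U of primes -/
def part (n : ℕ) (U : Finset ℕ) : ℕ := ∏ p ∈ U, p ^ n.factorization p

lemma part_ne_zero {n : ℕ} {U : Finset ℕ} (hU : U ⊆ n.primeFactors) : part n U ≠ 0 := by
  unfold part
  rw [Finset.prod_ne_zero_iff]
  intro p hp
  exact pow_ne_zero _ (Nat.prime_of_mem_primeFactors (hU hp)).ne_zero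

lemma part_coprime {n : ℕ} {U V : Finset ℕ} (hU : U ⊆ n.primeFactors) (hV : V ⊆ n.primeFactors)
    (hd : Disjoint U V) : Nat.Coprime (part n U) (part n V) := by
  unfold part
  apply Nat.Coprime.prod_left
  intro p hp
  apply Nat.Coprime.prod_right
  intro q hq
  apply Nat.Coprime.pow
  rw [Nat.coprime_primes (Nat.prime_of_mem_primeFactors (hU hp))
    (Nat.prime_of_mem_primeFactors (hV hq))]
  rintro rfl
  exact (Finset.disjoint_left.1 hd hp) hq

lemma part_mul {n : ℕ} (hn : n ≠ 0) {U : Finset ℕ} (hU : U ⊆ n.primeFactors) :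
    part n U * part n (n.primeFactors \ U) = n := by
  unfold part
  rw [mul_comm, Finset.prod_sdiff hU]
  exact Nat.prod_factorization_pow_eq_self hn

lemma card_div_part {n : ℕ} {U : Finset ℕ} (hU : U ⊆ n.primeFactors) :
    (part n U).divisors.card = ∏ p ∈ U, (n.factorization p + 1) := by
  classical
  induction U using Finset.induction_on with
  | empty => simp [part]
  | insert a s ha ih =>
    have hs : s ⊆ n.primeFactors := fun x hx => hU (Finset.mem_insert_of_mem hx)
    have hap := Nat.prime_of_mem_primeFactors (hU (Finset.mem_insert_self a s))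
    have e1 : part n (insert a s) = part n {a} * part n s := by
      unfold part
      rw [Finset.prod_insert ha, Finset.prod_singleton]
    have hc : Nat.Coprime (part n {a}) (part n s) := by
      apply part_coprime _ hs
      · exact Finset.disjoint_singleton_left.2 ha
      · intro x hx
        rw [Finset.mem_singleton] at hx
        subst hx
        exact hU (Finset.mem_insert_self _ s)
    rw [e1, Nat.Coprime.card_divisors_mul hc, ih hs, Finset.prod_insert ha]
    congr 1
    unfold part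
    rw [Finset.prod_singleton, Nat.divisors_prime_pow hap, Finset.card_map, Finset.card_range]

lemma card_div_part_sq {n : ℕ} {U : Finset ℕ} (hU : U ⊆ n.primeFactors) :
    (part n U * part n U).divisors.card = ∏ p ∈ U, (2 * n.factorization p + 1) := by
  classical
  induction U using Finset.induction_on with
  | empty => simp [part]
  | insert a s ha ih =>
    have hs : s ⊆ n.primeFactors := fun x hx => hU (Finset.mem_insert_of_mem hx)
    have hap := Nat.prime_of_mem_primeFactors (hU (Finset.mem_insert_self a s))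
    have e1 : part n (insert a s) = part n {a} * part n s := by
      unfold part
      rw [Finset.prod_insert ha, Finset.prod_singleton]
    have hc : Nat.Coprime (part n {a}) (part n s) := by
      apply part_coprime _ hs
      · exact Finset.disjoint_singleton_left.2 ha
      · intro x hx
        rw [Finset.mem_singleton] at hx
        subst hx
        exact hU (Finset.mem_insert_self _ s)
    have hc2 : Nat.Coprime (part n {a} * part n {a}) (part n s * part n s) :=
      Nat.Coprime.mul_left (Nat.Coprime.mul_right hc hc) (Nat.Coprime.mul_right hc hc)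
    have e2 : part n {a} * part n s * (part n {a} * part n s)
        = part n {a} * part n {a} * (part n s * part n s) := by ring
    rw [e1, e2, Nat.Coprime.card_divisors_mul hc2, ih hs, Finset.prod_insert ha]
    congr 1
    unfold part
    rw [Finset.prod_singleton, ← pow_add, Nat.divisors_prime_pow hap, Finset.card_map,
      Finset.card_range]
    ring

lemma log_two_mul_le (e : ℕ) (he : 1 ≤ e) :
    Real.log (2 * e + 1) ≤ 8 / 5 * Real.log (e + 1) := by
  obtain ⟨k, rfl⟩ := Nat.exists_eq_add_of_le he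
  have h1 : (2 * (((1 + k : ℕ) : ℝ)) + 1) ^ 5 ≤ (((1 + k : ℕ) : ℝ) + 1) ^ 8 := by
    push_cast
    have hk : (0 : ℝ) ≤ k := Nat.cast_nonneg k
    have : ((1 + (k : ℝ)) + 1) ^ 8 - (2 * (1 + (k : ℝ)) + 1) ^ 5 =
        (k : ℝ) ^ 8 + 16 * k ^ 7 + 112 * k ^ 6 + 416 * k ^ 5 + 880 * k ^ 4 + 1072 * k ^ 3
          + 712 * k ^ 2 + 214 * k + 13 := by ring
    have h2 : 0 ≤ (k : ℝ) ^ 8 + 16 * k ^ 7 + 112 * k ^ 6 + 416 * k ^ 5 + 880 * k ^ 4 + 1072 * k ^ 3
          + 712 * k ^ 2 + 214 * k + 13 := by positivity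
    linarith
  have h3 := Real.log_le_log (by positivity) h1
  rw [Real.log_pow, Real.log_pow] at h3
  push_cast at h3 ⊢
  linarith

lemma sum_log_eq {n : ℕ} {U : Finset ℕ} (c : ℕ) :
    ∑ p ∈ U, Real.log ((c : ℝ) * n.factorization p + 1)
      = Real.log ((∏ p ∈ U, (c * n.factorization p + 1) : ℕ) : ℝ) := by
  push_cast
  rw [Real.log_prod]
  intro p _
  positivity

/-- the main counting bound -/
lemma N_card_le {n h : ℕ} (hn : 1 < n) :
    Real.log (N n h).card ≤ Real.log 4 + 5 / 6 * Real.log n.divisors.card := by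
  classical
  have hn0 : n ≠ 0 := by omega
  set s := n.primeFactors with hs
  have hsne : s.Nonempty := by
    rw [hs]; exact Nat.nonempty_primeFactors.2 hn
  obtain ⟨p0, hp0, hmax⟩ := Finset.exists_max_image s (fun p => n.factorization p) hsne
  have hfpos : ∀ p ∈ s, 1 ≤ n.factorization p := by
    intro p hp
    have hp' := Nat.mem_primeFactors.1 hp
    exact (hp'.1.dvd_iff_one_le_factorization hn0).1 hp'.2.1
  -- nontrivial card
  rcases Nat.eq_zero_or_pos (N n h).card with h0 | hpos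
  · rw [h0]
    simp only [Nat.cast_zero, Real.log_zero]
    have : (0 : ℝ) ≤ Real.log n.divisors.card := Real.log_natCast_nonneg _
    have h4 : (0 : ℝ) ≤ Real.log 4 := Real.log_nonneg (by norm_num)
    linarith
  have hcardpos : (0 : ℝ) < (N n h).card := by exact_mod_cast hpos
  set w : ℕ → ℝ := fun p => Real.log (2 * n.factorization p + 1) with hw
  set B : ℝ := Real.log (2 * n.factorization p0 + 1) with hBdef
  have hB0 : 0 ≤ B := Real.log_nonneg (by
    have : (0 : ℝ) ≤ n.factorization p0 := Nat.cast_nonneg _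
    linarith)
  have hwB : ∀ p ∈ s, 0 ≤ w p ∧ w p ≤ B := by
    intro p hp
    have h1 : (0 : ℝ) ≤ n.factorization p := Nat.cast_nonneg _
    constructor
    · exact Real.log_nonneg (by linarith)
    · apply Real.log_le_log (by linarith)
      have : (n.factorization p : ℝ) ≤ n.factorization p0 := by exact_mod_cast hmax p hp
      linarith
  obtain ⟨U, hU, hUB⟩ := balanced s w B hB0 hwB
  set V := s \ U with hV
  have hVs : V ⊆ s := Finset.sdiff_subset
  have hsum : ∑ p ∈ V, w p + ∑ p ∈ U, w p = ∑ p ∈ s, w p := Finset.sum_sdiff hU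
  rw [abs_le] at hUB
  -- total bound
  have hlogT : Real.log n.divisors.card = ∑ p ∈ s, Real.log (n.factorization p + 1) := by
    rw [Nat.card_divisors hn0]
    push_cast
    rw [Real.log_prod]
    intro p _
    positivity
  have htot : ∑ p ∈ s, w p + B ≤ 8 / 5 * (Real.log n.divisors.card -
      Real.log (n.factorization p0 + 1)) + 2 * (Real.log 2 + Real.log (n.factorization p0 + 1)) := by
    have e1 : ∑ p ∈ s, w p = w p0 + ∑ p ∈ s.erase p0, w p :=
      (Finset.add_sum_erase s w hp0).symm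
    have e2 : ∑ p ∈ s, Real.log ((n.factorization p : ℝ) + 1)
        = Real.log (n.factorization p0 + 1) + ∑ p ∈ s.erase p0, Real.log (n.factorization p + 1) :=
      (Finset.add_sum_erase s (fun p => Real.log ((n.factorization p : ℝ) + 1)) hp0).symm
    have e3 : ∑ p ∈ s.erase p0, w p ≤ 8 / 5 * ∑ p ∈ s.erase p0, Real.log (n.factorization p + 1) := by
      rw [Finset.mul_sum]
      apply Finset.sum_le_sum
      intro p hp
      exact log_two_mul_le _ (hfpos p (Finset.mem_of_mem_erase hp))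
    have e4 : B ≤ Real.log 2 + Real.log (n.factorization p0 + 1) := by
      rw [← Real.log_mul (by norm_num) (by positivity)]
      apply Real.log_le_log (by positivity)
      linarith
    have e5 : w p0 = B := rfl
    rw [hlogT, e2, e1, e5]
    linarith
  -- the two halves
  have hUs : U ⊆ n.primeFactors := hU
  have hVs' : V ⊆ n.primeFactors := hVs
  have hn12 : part n U * part n V = n := part_mul hn0 hUs
  have hcop : Nat.Coprime (part n U) (part n V) :=
    part_coprime hUs hVs' (by rw [hV]; exact Finset.disjoint_sdiff)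
  have hcrt := N_card_le_crt (h := h) (part_ne_zero hUs) (part_ne_zero hVs') hcop
  rw [hn12, card_div_part_sq hUs, card_div_part_sq hVs'] at hcrt
  set L : ℝ := (∑ p ∈ s, w p + B) / 2 with hL
  have hUL : ((∏ p ∈ U, (2 * n.factorization p + 1) : ℕ) : ℝ) ≤ Real.exp L := by
    rw [← Real.log_le_iff_le_exp (by exact_mod_cast Finset.prod_pos (fun p _ => by positivity)),
      ← sum_log_eq]
    push_cast
    have : ∑ p ∈ U, Real.log (2 * (n.factorization p : ℝ) + 1) = ∑ p ∈ U, w p := rfl
    rw [this]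
    linarith [hUB.1, hUB.2]
  have hVL : ((∏ p ∈ V, (2 * n.factorization p + 1) : ℕ) : ℝ) ≤ Real.exp L := by
    rw [← Real.log_le_iff_le_exp (by exact_mod_cast Finset.prod_pos (fun p _ => by positivity)),
      ← sum_log_eq]
    push_cast
    have : ∑ p ∈ V, Real.log (2 * (n.factorization p : ℝ) + 1) = ∑ p ∈ V, w p := rfl
    rw [this]
    linarith [hUB.1, hUB.2]
  have hN1 : Real.log (N n h).card ≤ Real.log 2 + L := by
    have : ((N n h).card : ℝ) ≤ 2 * Real.exp L := by
      have : ((N n h).card : ℝ) ≤ ((∏ p ∈ U, (2 * n.factorization p + 1) : ℕ) : ℝ)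
          + ((∏ p ∈ V, (2 * n.factorization p + 1) : ℕ) : ℝ) := by exact_mod_cast hcrt
      linarith
    have h2 := Real.log_le_log hcardpos this
    rwa [Real.log_mul (by norm_num) (Real.exp_pos _).ne', Real.log_exp] at h2
  -- the chain bound
  have hN2 : Real.log (N n h).card ≤ Real.log 2 + (Real.log n.divisors.card -
      Real.log (n.factorization p0 + 1)) := by
    have hp0' := Nat.prime_of_mem_primeFactors hp0
    have hsing : ({p0} : Finset ℕ) ⊆ n.primeFactors := by
      intro x hx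
      rw [Finset.mem_singleton] at hx
      subst hx
      exact hp0
    have hd2 : s \ {p0} ⊆ n.primeFactors := Finset.sdiff_subset
    have e0 : part n {p0} = p0 ^ n.factorization p0 := by
      unfold part
      rw [Finset.prod_singleton]
    have e1 := part_mul hn0 hsing
    rw [e0] at e1
    have e2 := N_card_le_chain (p := p0) (e := n.factorization p0) (h := h) hp0'
      (part_ne_zero hd2)
    rw [← hs] at e1
    rw [e1, card_div_part hd2] at e2
    have e3 : n.divisors.card = (∏ p ∈ s \ {p0}, (n.factorization p + 1)) *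
        (n.factorization p0 + 1) := by
      rw [Nat.card_divisors hn0, ← hs, ← Finset.prod_sdiff hsing, Finset.prod_singleton]
    have e4 : ((N n h).card : ℝ) ≤ 2 * ((∏ p ∈ s \ {p0}, (n.factorization p + 1) : ℕ) : ℝ) := by
      exact_mod_cast e2
    have hPpos : (0 : ℝ) < ((∏ p ∈ s \ {p0}, (n.factorization p + 1) : ℕ) : ℝ) := by
      exact_mod_cast Finset.prod_pos (fun p _ => by positivity)
    have h2 := Real.log_le_log hcardpos e4
    rw [Real.log_mul (by norm_num) hPpos.ne'] at h2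
    have e5 : Real.log n.divisors.card = Real.log ((∏ p ∈ s \ {p0}, (n.factorization p + 1) : ℕ) : ℝ)
        + Real.log (n.factorization p0 + 1) := by
      rw [e3, Nat.cast_mul, Real.log_mul hPpos.ne' (by positivity)]
      push_cast
      rfl
    linarith
  have hlog4 : Real.log 4 = 2 * Real.log 2 := by
    rw [show (4 : ℝ) = 2 ^ 2 by norm_num, Real.log_pow]
    norm_num
  have hlog2 : 0 < Real.log 2 := Real.log_pos (by norm_num)
  rw [hlog4]
  have : L ≤ 4 / 5 * Real.log n.divisors.card + 1 / 5 * Real.log (n.factorization p0 + 1)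
      + Real.log 2 := by
    rw [hL]; linarith
  linarith

lemma N_card_le' {n h : ℕ} (hn : 1 < n) :
    ((N n h).card : ℝ) ≤ 4 * (n.divisors.card : ℝ) ^ (5 / 6 : ℝ) := by
  have hn0 : n ≠ 0 := by omega
  have hT : (0 : ℝ) < n.divisors.card := by
    exact_mod_cast Finset.card_pos.2 ⟨1, Nat.one_mem_divisors.2 hn0⟩
  rcases Nat.eq_zero_or_pos (N n h).card with h0 | hpos
  · rw [h0, Nat.cast_zero]
    positivity
  · have hc : (0 : ℝ) < (N n h).card := by exact_mod_cast hpos
    rw [← Real.log_le_log_iff hc (by positivity), Real.log_mul (by norm_num)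
      (by positivity), Real.log_rpow hT]
    exact N_card_le hn

lemma Q_card_le {n : ℕ} (hn : 1 < n) :
    ((Q n).card : ℝ) ≤ (n.divisors.card : ℝ) ^ (8 / 5 : ℝ) := by
  have hn0 : n ≠ 0 := by omega
  have hT : (0 : ℝ) < n.divisors.card := by
    exact_mod_cast Finset.card_pos.2 ⟨1, Nat.one_mem_divisors.2 hn0⟩
  have hfpos : ∀ p ∈ n.primeFactors, 1 ≤ n.factorization p := by
    intro p hp
    have hp' := Nat.mem_primeFactors.1 hp
    exact (hp'.1.dvd_iff_one_le_factorization hn0).1 hp'.2.1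
  have h1 : part n n.primeFactors = n := by
    unfold part
    exact Nat.prod_factorization_pow_eq_self hn0
  have h2 := card_div_part_sq (n := n) (Finset.Subset.refl n.primeFactors)
  rw [h1] at h2
  have h3 : ((Q n).card : ℝ) ≤ ((n * n).divisors.card : ℝ) := by exact_mod_cast card_Q_le hn0
  refine le_trans h3 ?_
  have hpos : (0 : ℝ) < ((n * n).divisors.card : ℝ) := by
    exact_mod_cast Finset.card_pos.2 ⟨1, Nat.one_mem_divisors.2 (Nat.mul_ne_zero hn0 hn0)⟩
  rw [← Real.log_le_log_iff hpos (by positivity), Real.log_rpow hT, h2, Nat.card_divisors hn0]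
  have e1 := sum_log_eq (n := n) (U := n.primeFactors) 2
  have e2 := sum_log_eq (n := n) (U := n.primeFactors) 1
  simp only [one_mul, Nat.cast_one] at e2
  rw [← e1, ← e2, Finset.mul_sum]
  apply Finset.sum_le_sum
  intro p hp
  exact_mod_cast log_two_mul_le _ (hfpos p hp)

/-- ordered coprime pairs -/
def P (n : ℕ) : Finset (ℕ × ℕ) := (Q n).filter (fun x => x.1 < x.2)

lemma mem_P {n : ℕ} (hn : n ≠ 0) (x : ℕ × ℕ) :
    x ∈ P n ↔ (Nat.Coprime x.1 x.2 ∧ x.1 * x.2 ∣ n) ∧ x.1 < x.2 := by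
  unfold P
  rw [mem_filter, mem_Q hn]

lemma harm_le (T : ℕ) : ∑ h ∈ Finset.Icc 1 T, (1 : ℝ) / h ≤ 1 + Real.log T := by
  have h := harmonic_le_one_add_log T
  rw [harmonic_eq_sum_Icc] at h
  push_cast at h
  simpa [one_div] using h

lemma sum_P_le {n : ℕ} (hn : 1 < n) :
    ∑ x ∈ P n, (1 : ℝ) / ((x.2 : ℝ) - (x.1 : ℝ)) ≤
      (n.divisors.card : ℝ) ^ (5 / 6 : ℝ) * (5 + 4 * Real.log n.divisors.card) := by
  classical
  have hn0 : n ≠ 0 := by omega
  set T := n.divisors.card with hTdef
  have hTpos : 0 < T := Finset.card_pos.2 ⟨1, Nat.one_mem_divisors.2 hn0⟩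
  have hT1 : (1 : ℝ) ≤ T := by exact_mod_cast hTpos
  have hT0 : (0 : ℝ) < T := by linarith
  rw [← Finset.sum_filter_add_sum_filter_not (P n) (fun x => x.2 - x.1 ≤ T)]
  have hA : ∑ x ∈ (P n).filter (fun x => x.2 - x.1 ≤ T), (1 : ℝ) / ((x.2 : ℝ) - (x.1 : ℝ)) ≤
      4 * (T : ℝ) ^ (5 / 6 : ℝ) * (1 + Real.log T) := by
    rw [← Finset.sum_fiberwise_of_maps_to (s := (P n).filter (fun x => x.2 - x.1 ≤ T))
      (t := Finset.Icc 1 T) (g := fun x => x.2 - x.1)]
    · calc ∑ h ∈ Finset.Icc 1 T, ∑ x ∈ ((P n).filter (fun x => x.2 - x.1 ≤ T)).filter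
            (fun x => x.2 - x.1 = h), (1 : ℝ) / ((x.2 : ℝ) - (x.1 : ℝ))
          ≤ ∑ h ∈ Finset.Icc 1 T, (4 * (T : ℝ) ^ (5 / 6 : ℝ)) * ((1 : ℝ) / h) := by
            apply Finset.sum_le_sum
            intro h hh
            have hh1 := (Finset.mem_Icc.1 hh).1
            calc ∑ x ∈ ((P n).filter (fun x => x.2 - x.1 ≤ T)).filter
                  (fun x => x.2 - x.1 = h), (1 : ℝ) / ((x.2 : ℝ) - (x.1 : ℝ))
                ≤ ∑ x ∈ N n h, (1 : ℝ) / h := by
                  have hsub : ((P n).filter (fun x => x.2 - x.1 ≤ T)).filter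
                      (fun x => x.2 - x.1 = h) ⊆ N n h := by
                    intro x hx
                    rw [Finset.mem_filter, Finset.mem_filter, mem_P hn0] at hx
                    rw [mem_N hn0]
                    refine ⟨hx.1.1.1, ?_⟩
                    have := hx.1.1.2
                    have := hx.2
                    omega
                  calc ∑ x ∈ ((P n).filter (fun x => x.2 - x.1 ≤ T)).filter
                        (fun x => x.2 - x.1 = h), (1 : ℝ) / ((x.2 : ℝ) - (x.1 : ℝ))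
                      = ∑ x ∈ ((P n).filter (fun x => x.2 - x.1 ≤ T)).filter
                        (fun x => x.2 - x.1 = h), (1 : ℝ) / h := by
                        apply Finset.sum_congr rfl
                        intro x hx
                        rw [Finset.mem_filter, Finset.mem_filter, mem_P hn0] at hx
                        have h1 := hx.1.1.2
                        have h2 := hx.2
                        have h3 : x.2 = x.1 + h := by omega
                        rw [h3]
                        push_cast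
                        congr 1
                        ring
                    _ ≤ ∑ x ∈ N n h, (1 : ℝ) / h := by
                        apply Finset.sum_le_sum_of_subset_of_nonneg hsub
                        intro x _ _
                        positivity
              _ = ((N n h).card : ℝ) * (1 / h) := by
                  rw [Finset.sum_const, nsmul_eq_mul]
              _ ≤ (4 * (T : ℝ) ^ (5 / 6 : ℝ)) * ((1 : ℝ) / h) := by
                  apply mul_le_mul_of_nonneg_right (N_card_le' hn) (by positivity)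
        _ = (4 * (T : ℝ) ^ (5 / 6 : ℝ)) * ∑ h ∈ Finset.Icc 1 T, ((1 : ℝ) / h) := by
            rw [Finset.mul_sum]
        _ ≤ (4 * (T : ℝ) ^ (5 / 6 : ℝ)) * (1 + Real.log T) := by
            apply mul_le_mul_of_nonneg_left (harm_le T) (by positivity)
    · intro x hx
      rw [Finset.mem_filter, mem_P hn0] at hx
      rw [Finset.mem_Icc]
      have := hx.1.2
      have := hx.2
      constructor <;> omega
  have hB : ∑ x ∈ (P n).filter (fun x => ¬ x.2 - x.1 ≤ T), (1 : ℝ) / ((x.2 : ℝ) - (x.1 : ℝ)) ≤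
      (T : ℝ) ^ (5 / 6 : ℝ) := by
    calc ∑ x ∈ (P n).filter (fun x => ¬ x.2 - x.1 ≤ T), (1 : ℝ) / ((x.2 : ℝ) - (x.1 : ℝ))
        ≤ ∑ x ∈ (P n).filter (fun x => ¬ x.2 - x.1 ≤ T), (1 : ℝ) / T := by
          apply Finset.sum_le_sum
          intro x hx
          rw [Finset.mem_filter, mem_P hn0] at hx
          have h1 : x.1 + T ≤ x.2 := by
            have := hx.1.2
            have := hx.2
            omega
          have h2 : (x.1 : ℝ) + T ≤ x.2 := by exact_mod_cast h1
          apply one_div_le_one_div_of_le hT0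
          linarith
      _ = (((P n).filter (fun x => ¬ x.2 - x.1 ≤ T)).card : ℝ) * (1 / T) := by
          rw [Finset.sum_const, nsmul_eq_mul]
      _ ≤ (T : ℝ) ^ (8 / 5 : ℝ) * (1 / T) := by
          apply mul_le_mul_of_nonneg_right _ (by positivity)
          refine le_trans ?_ (Q_card_le hn)
          have : ((P n).filter (fun x => ¬ x.2 - x.1 ≤ T)).card ≤ (Q n).card := by
            apply Finset.card_le_card
            exact (Finset.filter_subset _ _).trans (Finset.filter_subset _ _)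
          exact_mod_cast this
      _ = (T : ℝ) ^ (3 / 5 : ℝ) := by
          rw [one_div, ← Real.rpow_neg_one, ← Real.rpow_add hT0]
          norm_num
      _ ≤ (T : ℝ) ^ (5 / 6 : ℝ) := Real.rpow_le_rpow_of_exponent_le hT1 (by norm_num)
  calc _ ≤ 4 * (T : ℝ) ^ (5 / 6 : ℝ) * (1 + Real.log T) + (T : ℝ) ^ (5 / 6 : ℝ) := add_le_add hA hB
    _ = (T : ℝ) ^ (5 / 6 : ℝ) * (5 + 4 * Real.log T) := by ring

lemma sum_inv_le {n : ℕ} (hn : n ≠ 0) :
    ∑ g ∈ n.divisors, (1 : ℝ) / g ≤ 2 + Real.log n.divisors.card := by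
  classical
  set T := n.divisors.card with hTdef
  have hTpos : 0 < T := Finset.card_pos.2 ⟨1, Nat.one_mem_divisors.2 hn⟩
  have hT0 : (0 : ℝ) < T := by exact_mod_cast hTpos
  rw [← Finset.sum_filter_add_sum_filter_not n.divisors (fun g => g ≤ T)]
  have hA : ∑ g ∈ n.divisors.filter (fun g => g ≤ T), (1 : ℝ) / g ≤ 1 + Real.log T := by
    refine le_trans ?_ (harm_le T)
    apply Finset.sum_le_sum_of_subset_of_nonneg
    · intro g hg
      rw [Finset.mem_filter] at hg
      rw [Finset.mem_Icc]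
      exact ⟨Nat.pos_of_mem_divisors hg.1, hg.2⟩
    · intro g _ _
      positivity
  have hB : ∑ g ∈ n.divisors.filter (fun g => ¬ g ≤ T), (1 : ℝ) / g ≤ 1 := by
    calc ∑ g ∈ n.divisors.filter (fun g => ¬ g ≤ T), (1 : ℝ) / g
        ≤ ∑ g ∈ n.divisors.filter (fun g => ¬ g ≤ T), (1 : ℝ) / T := by
          apply Finset.sum_le_sum
          intro g hg
          rw [Finset.mem_filter] at hg
          apply one_div_le_one_div_of_le hT0
          have : T ≤ g := by omega
          exact_mod_cast this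
      _ = ((n.divisors.filter (fun g => ¬ g ≤ T)).card : ℝ) * (1 / T) := by
          rw [Finset.sum_const, nsmul_eq_mul]
      _ ≤ (T : ℝ) * (1 / T) := by
          apply mul_le_mul_of_nonneg_right _ (by positivity)
          have : (n.divisors.filter (fun g => ¬ g ≤ T)).card ≤ T :=
            Finset.card_le_card (Finset.filter_subset _ _)
          exact_mod_cast this
      _ = 1 := by field_simp
  linarith

lemma S_le {n : ℕ} (hn : n ≠ 0) :
    (∑ d ∈ n.divisors, ∑ e ∈ n.divisors.filter (fun e => d < e),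
      (1 : ℝ) / ((e : ℝ) - (d : ℝ))) ≤
    (∑ g ∈ n.divisors, (1 : ℝ) / g) * ∑ x ∈ P n, (1 : ℝ) / ((x.2 : ℝ) - (x.1 : ℝ)) := by
  classical
  have e1 : (∑ d ∈ n.divisors, ∑ e ∈ n.divisors.filter (fun e => d < e),
      (1 : ℝ) / ((e : ℝ) - (d : ℝ))) =
      ∑ z ∈ (n.divisors ×ˢ n.divisors).filter (fun z => z.1 < z.2),
        (1 : ℝ) / ((z.2 : ℝ) - (z.1 : ℝ)) := by
    rw [Finset.sum_filter, Finset.sum_product]
    apply Finset.sum_congr rfl
    intro d _
    rw [Finset.sum_filter]
  rw [e1, Finset.sum_mul_sum, ← Finset.sum_product']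
  let φ : ℕ × ℕ → ℕ × (ℕ × ℕ) := fun z =>
    (Nat.gcd z.1 z.2, (z.1 / Nat.gcd z.1 z.2, z.2 / Nat.gcd z.1 z.2))
  have hφ : ∀ z ∈ (n.divisors ×ˢ n.divisors).filter (fun z => z.1 < z.2),
      0 < Nat.gcd z.1 z.2 ∧ z.1 / Nat.gcd z.1 z.2 * Nat.gcd z.1 z.2 = z.1 ∧
      z.2 / Nat.gcd z.1 z.2 * Nat.gcd z.1 z.2 = z.2 := by
    intro z hz
    rw [Finset.mem_filter, Finset.mem_product] at hz
    have hpos : 0 < z.1 := Nat.pos_of_mem_divisors hz.1.1
    exact ⟨Nat.gcd_pos_of_pos_left _ hpos, Nat.div_mul_cancel (Nat.gcd_dvd_left _ _),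
      Nat.div_mul_cancel (Nat.gcd_dvd_right _ _)⟩
  have hinj : Set.InjOn φ (((n.divisors ×ˢ n.divisors).filter (fun z => z.1 < z.2) :
      Finset (ℕ × ℕ)) : Set (ℕ × ℕ)) := by
    intro z hz w hw hzw
    obtain ⟨_, z1, z2⟩ := hφ z (Finset.mem_coe.1 hz)
    obtain ⟨_, w1, w2⟩ := hφ w (Finset.mem_coe.1 hw)
    simp only [φ, Prod.mk.injEq] at hzw
    obtain ⟨g0, g1, g2⟩ := hzw
    apply Prod.ext
    · rw [← z1, ← w1, g1, g0]
    · rw [← z2, ← w2, g2, g0]
  calc ∑ z ∈ (n.divisors ×ˢ n.divisors).filter (fun z => z.1 < z.2),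
        (1 : ℝ) / ((z.2 : ℝ) - (z.1 : ℝ))
      = ∑ z ∈ (n.divisors ×ˢ n.divisors).filter (fun z => z.1 < z.2),
        (fun y : ℕ × (ℕ × ℕ) => (1 : ℝ) / y.1 * ((1 : ℝ) / ((y.2.2 : ℝ) - (y.2.1 : ℝ)))) (φ z) := by
        apply Finset.sum_congr rfl
        intro z hz
        obtain ⟨h0, z1, z2⟩ := hφ z hz
        simp only [φ]
        have h0' : (0 : ℝ) < (Nat.gcd z.1 z.2 : ℕ) := by exact_mod_cast h0
        have z1' : ((z.1 / Nat.gcd z.1 z.2 : ℕ) : ℝ) * (Nat.gcd z.1 z.2 : ℕ) = z.1 := by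
          exact_mod_cast z1
        have z2' : ((z.2 / Nat.gcd z.1 z.2 : ℕ) : ℝ) * (Nat.gcd z.1 z.2 : ℕ) = z.2 := by
          exact_mod_cast z2
        rw [one_div_mul_one_div]
        congr 1
        rw [mul_sub, mul_comm _ ((z.2 / Nat.gcd z.1 z.2 : ℕ) : ℝ),
          mul_comm _ ((z.1 / Nat.gcd z.1 z.2 : ℕ) : ℝ), z1', z2']
    _ = ∑ y ∈ ((n.divisors ×ˢ n.divisors).filter (fun z => z.1 < z.2)).image φ,
        (1 : ℝ) / y.1 * ((1 : ℝ) / ((y.2.2 : ℝ) - (y.2.1 : ℝ))) := by
        rw [Finset.sum_image hinj]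
    _ ≤ ∑ y ∈ n.divisors ×ˢ P n, (1 : ℝ) / y.1 * ((1 : ℝ) / ((y.2.2 : ℝ) - (y.2.1 : ℝ))) := by
        apply Finset.sum_le_sum_of_subset_of_nonneg
        · intro y hy
          rw [Finset.mem_image] at hy
          obtain ⟨z, hz, rfl⟩ := hy
          obtain ⟨h0, z1, z2⟩ := hφ z hz
          rw [Finset.mem_filter, Finset.mem_product, Nat.mem_divisors, Nat.mem_divisors] at hz
          rw [Finset.mem_product, mem_P hn, Nat.mem_divisors]
          simp only [φ]
          refine ⟨⟨(Nat.gcd_dvd_left _ _).trans hz.1.1.1, hn⟩,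
            ⟨Nat.coprime_div_gcd_div_gcd h0, ?_⟩, ?_⟩
          · have hl : Nat.lcm z.1 z.2 ∣ n := Nat.lcm_dvd hz.1.1.1 hz.1.2.1
            refine dvd_trans ?_ hl
            refine ⟨Nat.gcd z.1 z.2, ?_⟩
            have h3 : Nat.gcd z.1 z.2 * Nat.lcm z.1 z.2 = z.1 * z.2 := Nat.gcd_mul_lcm _ _
            apply Nat.eq_of_mul_eq_mul_left h0
            rw [h3]
            calc z.1 * z.2 = (z.1 / Nat.gcd z.1 z.2 * Nat.gcd z.1 z.2) *
                  (z.2 / Nat.gcd z.1 z.2 * Nat.gcd z.1 z.2) := by rw [z1, z2]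
              _ = _ := by ring
          · by_contra hcon
            rw [not_lt] at hcon
            have : z.2 ≤ z.1 := by
              calc z.2 = z.2 / Nat.gcd z.1 z.2 * Nat.gcd z.1 z.2 := z2.symm
                _ ≤ z.1 / Nat.gcd z.1 z.2 * Nat.gcd z.1 z.2 := Nat.mul_le_mul_right _ hcon
                _ = z.1 := z1
            omega
        · intro y hy _
          rw [Finset.mem_product, mem_P hn] at hy
          have h1 : (y.2.1 : ℝ) < y.2.2 := by exact_mod_cast hy.2.2
          have h2 : (0 : ℝ) < (y.2.2 : ℝ) - y.2.1 := by linarith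
          positivity

/-- the inequality with a power saving -/
lemma main_bound {n : ℕ} (hn : n ≠ 0) :
    (∑ d ∈ n.divisors, ∑ e ∈ n.divisors.filter (fun e => d < e),
      (1 : ℝ) / ((e : ℝ) - (d : ℝ))) ≤
    (2 + Real.log n.divisors.card) * (5 + 4 * Real.log n.divisors.card) *
      (n.divisors.card : ℝ) ^ (5 / 6 : ℝ) := by
  have hlog : (0 : ℝ) ≤ Real.log n.divisors.card := Real.log_natCast_nonneg _
  rcases Nat.lt_or_ge 1 n with h1 | h1
  · refine le_trans (S_le hn) ?_
    have hP0 : 0 ≤ ∑ x ∈ P n, (1 : ℝ) / ((x.2 : ℝ) - (x.1 : ℝ)) := by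
      apply Finset.sum_nonneg
      intro x hx
      rw [mem_P hn] at hx
      have h1 : (x.1 : ℝ) < x.2 := by exact_mod_cast hx.2
      have h2 : (0 : ℝ) < (x.2 : ℝ) - x.1 := by linarith
      positivity
    calc _ ≤ (2 + Real.log n.divisors.card) *
          ((n.divisors.card : ℝ) ^ (5 / 6 : ℝ) * (5 + 4 * Real.log n.divisors.card)) :=
          mul_le_mul (sum_inv_le hn) (sum_P_le h1) hP0 (by linarith)
      _ = _ := by ring
  · have : n = 1 := by omega
    subst this
    simp [Finset.filter_singleton]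

lemma final_ineq {T : ℝ} (hT : (2 : ℝ) ^ 84 ≤ T) :
    (2 + Real.log T) * (5 + 4 * Real.log T) * T ^ (5 / 6 : ℝ) < T := by
  have hT0 : 0 < T := lt_of_lt_of_le (by positivity) hT
  set z : ℝ := T ^ (1 / 12 : ℝ) with hz
  have hz0 : 0 < z := Real.rpow_pos_of_pos hT0 _
  have hz12 : z ^ 12 = T := by
    rw [hz, ← Real.rpow_natCast, ← Real.rpow_mul hT0.le]
    norm_num
  have hz10 : z ^ 10 = T ^ (5 / 6 : ℝ) := by
    rw [hz, ← Real.rpow_natCast, ← Real.rpow_mul hT0.le]
    norm_num
  have hz128 : 128 ≤ z := by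
    by_contra hcon
    rw [not_le] at hcon
    have h1 : z ^ 12 < 128 ^ 12 := pow_lt_pow_left₀ hcon hz0.le (by norm_num)
    rw [hz12] at h1
    have h2 : (128 : ℝ) ^ 12 = 2 ^ 84 := by norm_num
    linarith
  have hlog : Real.log T = 12 * Real.log z := by
    rw [← hz12, Real.log_pow]
    norm_num
  have hlogz : Real.log z ≤ 7 * 0.6931471808 + (z / 128 - 1) := by
    have h1 : Real.log z = Real.log 128 + Real.log (z / 128) := by
      rw [← Real.log_mul (by norm_num) (by positivity)]
      congr 1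
      field_simp
    have h2 : Real.log (z / 128) ≤ z / 128 - 1 := Real.log_le_sub_one_of_pos (by positivity)
    have h3 : Real.log 128 = 7 * Real.log 2 := by
      rw [show (128 : ℝ) = 2 ^ 7 by norm_num, Real.log_pow]
      norm_num
    have h4 := Real.log_two_lt_d9
    rw [h1, h3]
    linarith
  have hlogz0 : 0 ≤ Real.log z := Real.log_nonneg (by linarith)
  rw [← hz10, ← hz12, Real.log_pow]
  push_cast
  have key : (2 + 12 * Real.log z) * (5 + 4 * (12 * Real.log z)) < z ^ 2 := by
    set l := Real.log z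
    have hl : l ≤ z / 128 + 3.8520302656 := by linarith
    calc (2 + 12 * l) * (5 + 4 * (12 * l)) ≤
        (2 + 12 * (z / 128 + 3.8520302656)) * (5 + 4 * (12 * (z / 128 + 3.8520302656))) := by
          apply mul_le_mul
          · linarith
          · linarith
          · linarith
          · positivity
      _ < z ^ 2 := by nlinarith
  calc (2 + 12 * Real.log z) * (5 + 4 * (12 * Real.log z)) * z ^ 10
      < z ^ 2 * z ^ 10 := by
        apply mul_lt_mul_of_pos_right key (by positivity)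
    _ = z ^ 12 := by ring

/-- **Result.** Let `τ(n)` be the number of divisors of `n` and `S(n)` the sum of `1/(e-d)` over all pairs
of divisors `d < e` of `n`. For every `n` with at least `2^84` divisors,
`S(n) ≤ (2 + log τ(n)) (5 + 4 log τ(n)) τ(n)^(5/6) < τ(n)`. -/
theorem result :
    ∀ n : ℕ, 2 ^ 84 ≤ n.divisors.card →
      (∑ d ∈ n.divisors, ∑ e ∈ n.divisors.filter (fun e => d < e),
          (1 : ℝ) / ((e : ℝ) - (d : ℝ))) ≤
        (2 + Real.log n.divisors.card) * (5 + 4 * Real.log n.divisors.card) *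
          (n.divisors.card : ℝ) ^ (5 / 6 : ℝ) ∧
      (2 + Real.log n.divisors.card) * (5 + 4 * Real.log n.divisors.card) *
          (n.divisors.card : ℝ) ^ (5 / 6 : ℝ) < (n.divisors.card : ℝ) := by
  intro n hn
  have hn0 : n ≠ 0 := by
    rintro rfl
    simp at hn
  refine ⟨main_bound hn0, final_ineq ?_⟩
  exact_mod_cast hn

end Pool.Agent.Results.MP_9e760c_nt.PowerSaving
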